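import Pool.Agent.Helper92.MC.DC2
import Pool.Agent.Helper33.MC.Loss
import Pool.Agent.Helper91.MC.D1

/-!
MP_4042d8_co, section D: Case 4 (row D_C4).
-/

set_option autoImplicit false
set_option linter.unusedSectionVars false
set_option linter.unusedSimpArgs false
set_option linter.unusedVariables false

namespace Pool.Agent.Helper54.MC

open Pool.Agent.Helper27.MC Pool.Agent.Helper51.MC Pool.Agent.Helper88.MC Pool.Agent.Helper64.MC
open Pool.Agent.Helper91.MC (partner_uniq mem_Fr mem_T1 sv_ex sv_swap sv_rm sv_Fr sv_T1 av_ex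
  tA_or_tQ tB_or_tS tA_not_tQ fr_data)
open Pool.Agent.Helper33.MC Pool.Agent.Helper92.MC

variable {V : Type} [Fintype V] [DecidableEq V] {G : SimpleGraph V} [DecidableRel G.Adj]
  {c : V → Bool} {H : Finset V}

section facts

variable (F : Fx G c)
include F

/-- one slot `(s,z)` together with the slots which are spoiled at `z`: at most two -/
theorem spoil (hP2 : ¬ P2 G c H) (hP3 : ¬ P3 G c H) {s z : V} (hs : s ∈ Fr G c)
    (hsz : G.Adj s z) (tz : tA G c z) :
    ∃ L : Finset (V × V), L.card ≤ 2 ∧ (LS G c H s z → (s, z) ∈ L) ∧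
      ∀ f x g y m v' w w', Sqr G c f g x y m v' w w' → LS G c H f x → Live G c H g →
        m ∈ T1 G c → G.Adj z m → (f, x) ∈ L := by
  classical
  have ms : ∀ m : V, m ∈ T1 G c → m ≠ s := fun m hm e => fr_not_T1 F hs (e ▸ hm)
  by_cases h : LS G c H s z
  · refine ⟨{(s, z)}, by simp, fun _ => by simp, ?_⟩
    intro f x g y m v' w w' hq hf hg hm hzm
    exfalso
    have h1 : Live G c H v' := by
      by_contra hn
      exact hP2 ⟨s, z, m, f, g, x, y, v', w, w', ⟨h, hzm, ms m hm, hm, (sv_rm hq.h1).symm,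
        hf.2.2.2.1.1⟩, hq, LS.live F hf, hg, hn⟩
    exact hP3 ⟨f, g, x, y, m, v', w, w', hq, LS.live F hf, hg, hf, h1⟩
  · obtain ⟨L, hL, hL'⟩ := mate_slots F (H := H) hs hsz tz
    exact ⟨L, hL, fun h' => (h h').elim, fun f x g y m v' w w' hq hf hg hm hzm =>
      hL' f x m hf (sv_rm hq.h1) hzm (ms m hm)⟩

/-- the partner of a live free vertex with a live `M`-neighbour is in no live slot -/
theorem no_partner (hP2 : ¬ P2 G c H) (hP3 : ¬ P3 G c H) {u a t r x1 x2 f z : V}
    (hM : MS G c H u a t r) (hr : Live G c H r) (Sr : Sv G c r t x1 x2) (t1 : tA G c x1)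
    (hf : LS G c H f z) (hne : f ≠ r) (h1 : G.Adj x1 f) : False := by
  obtain ⟨v2, w1, w2, hq⟩ := sqr_of F Sr hr.1 hf.1 (fun e => hne e.symm) h1 t1
  have hLf : Live G c H f := LS.live F hf
  have hv : Live G c H v2 := by
    by_contra hn
    exact hP2 ⟨u, a, t, r, f, x1, x2, v2, w1, w2, hM, hq, hr, hLf, hn⟩
  -- `z` is `x1` or `x2`
  rcases (hq.h2.n3.nb z).1 hf.2.2.1 with h | h | h
  · have h2 := hf.2.1.1
    rw [h, hq.h2.cm] at h2
    cases h2
  · subst h
    exact hP3 ⟨r, f, z, x2, t, v2, w1, w2, hq, hr, hLf,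
      ⟨hr.1, hf.2.1, (hq.h1.n3.nb z).2 (by tauto), hr.2, hf.2.2.2.2⟩, hv⟩
  · subst h
    exact hP3 ⟨r, f, z, x1, t, v2, w2, w1, hq.swapA, hr, hLf,
      ⟨hr.1, hf.2.1, (hq.h1.n3.nb z).2 (by tauto), hr.2, hf.2.2.2.2⟩, hv⟩

end facts

/-- row D_C4 -/
theorem st_DC4 : ST_DC4 := by
  intro V _ _ G _ c H F hI hPN hP2 hP3 hP4
  classical
  obtain ⟨u, a, t, r, hM, hr⟩ := hP4
  have hM0 := hM
  obtain ⟨hl, hat, htu, ht, htr, hrH⟩ := hM
  obtain ⟨v, b, Su, tb⟩ := fr_sv F hl.1 hl.2.2.1 hl.2.1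
  have ta := hl.2.1
  have hu := hl.1
  have hua := hl.2.2.1
  have huS := fr_tS F hu
  have htS := t1_tS F ht
  have hrF := hr.1
  have hrS := fr_tS F hrF
  have htF : t ∉ Fr G c := fun h => fr_not_T1 F h ht
  obtain ⟨p, A⟩ : ∃ p, Av G c a u p t := by
    obtain ⟨y, z, A⟩ := av_ex F.reg ta hua.symm
    rcases (A.n3.nb t).1 hat with h | h | h
    · exact (htu h).elim
    · subst h; exact ⟨z, av_swap' A⟩
    · subst h; exact ⟨y, A⟩
  have hp : tB G c p := third_B F (av_swap' A) huS htS ta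
  have hap : G.Adj a p := (A.n3.nb p).2 (by tauto)
  obtain ⟨r0, q, St, hq⟩ := t1_sv F ht hat.symm ta
  have e0 : r0 = r := (sv_mate F St htr).symm
  subst e0
  -- the data of `r`
  obtain ⟨x1, x2, Sr, tx1, tx2⟩ : ∃ x1 x2, Sv G c r0 t x1 x2 ∧ tA G c x1 ∧ tA G c x2 := by
    obtain ⟨m, x1, x2, nb, cs, cm, c1, c2, h12, m1, m2⟩ := fr_data F.reg F.mu1 hrF
    have hma : m ≠ x1 := by
      rintro rfl
      rw [cm] at c1
      cases c1
    have hmb : m ≠ x2 := by
      rintro rfl
      rw [cm] at c2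
      cases c2
    have hsv : Sv G c r0 m x1 x2 := ⟨cs, cm, c1, c2, ⟨nb, hma, hmb, h12⟩⟩
    have e : t = m := sv_mate F hsv htr.symm
    subst e
    exact ⟨x1, x2, hsv, ⟨c1, m1⟩, ⟨c2, m2⟩⟩
  have hub : G.Adj u b := (Su.n3.nb b).2 (by tauto)
  have huv : Rm G c u v := sv_rm Su
  -- `a` is not adjacent to another free vertex
  have haf : ∀ g, g ∈ Fr G c → G.Adj a g → g = u := by
    intro g hg h
    rcases (A.n3.nb g).1 h with h1 | h1 | h1
    · exact h1
    · exact (B_not_S hp (fr_tS F hg) h1.symm).elim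
    · rw [h1] at hg
      exact (htF hg).elim
  have hbf : ∀ g, g ∈ Fr G c → G.Adj b g → g = u := fun g hg h =>
    only_u F Su hu haf tb hg h
  have hrx1 : G.Adj r0 x1 := (Sr.n3.nb x1).2 (by tauto)
  have hrx2 : G.Adj r0 x2 := (Sr.n3.nb x2).2 (by tauto)
  have hru : r0 ≠ u := by
    rintro rfl
    exact F.tf r0 t a htr.1.symm hat.symm hua
  have hax1 : a ≠ x1 := by
    rintro rfl
    exact F.tf r0 t a htr.1.symm hat.symm hrx1
  have hax2 : a ≠ x2 := by
    rintro rfl
    exact F.tf r0 t a htr.1.symm hat.symm hrx2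
  have hbx1 : b ≠ x1 := by
    rintro rfl
    exact hru (hbf r0 hrF hrx1.symm)
  have hbx2 : b ≠ x2 := by
    rintro rfl
    exact hru (hbf r0 hrF hrx2.symm)
  have hvr : v ≠ r0 := by
    rintro rfl
    exact htu (rm_uniq (F.mu1 _) htr.symm huv.symm)
  have hrt : r0 ≠ t := htr.1.ne.symm
  have hrp : p ≠ r0 := B_not_S hp hrS
  -- the operations
  set H1 := H ∪ {r0, x1, x2} with hH1
  set H2 := H1 ∪ {u, b, p, a, t} with hH2
  have o1 : OpU G c H H1 := ⟨r0, t, x1, x2, Sr, tx1, tx2, hr.2, rfl⟩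
  have cu1 : Clr G H1 u := by
    by_contra hn
    obtain ⟨k, hk, h⟩ := nclr hl.2.2.2.1 hn
    simp only [Finset.mem_insert, Finset.mem_singleton] at hk
    rcases hk with rfl | rfl | rfl
    · rcases h with h | h
      · exact hru h.symm
      · rcases (Su.n3.nb k).1 h with h1 | h1 | h1
        · exact hvr h1.symm
        · exact ne_tf ta.1 Sr.cs h1.symm
        · exact ne_tf tb.1 Sr.cs h1.symm
    · rcases h with h | h
      · exact ne_tf tx1.1 huS.1 h.symm
      · rcases (Su.n3.nb k).1 h with h1 | h1 | h1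
        · exact ne_tf tx1.1 Su.cm h1
        · exact hax1 h1.symm
        · exact hbx1 h1.symm
    · rcases h with h | h
      · exact ne_tf tx2.1 huS.1 h.symm
      · rcases (Su.n3.nb k).1 h with h1 | h1 | h1
        · exact ne_tf tx2.1 Su.cm h1
        · exact hax2 h1.symm
        · exact hbx2 h1.symm
  have ca1 : Clr G H1 a := by
    by_contra hn
    obtain ⟨k, hk, h⟩ := nclr hl.2.2.2.2 hn
    simp only [Finset.mem_insert, Finset.mem_singleton] at hk
    rcases hk with rfl | rfl | rfl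
    · rcases h with h | h
      · exact ne_tf ta.1 Sr.cs h
      · rcases (A.n3.nb k).1 h with h1 | h1 | h1
        · exact hru h1
        · exact hrp h1.symm
        · exact hrt h1
    · rcases h with h | h
      · exact hax1 h
      · exact aa_no ta tx1.1 h
    · rcases h with h | h
      · exact hax2 h
      · exact aa_no ta tx2.1 h
  have o2 : OpN G c H1 H2 := by
    refine ⟨u, v, a, b, p, t, Su, A, ta, tb, cu1, ca1, bare_B F hp, ?_, rfl⟩
    intro z hz
    right
    rw [sv_mate F St hz, hH1]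
    simp
  refine ⟨H1, H2, o1, o2, ?_⟩
  -- the new hard vertices
  have hHH : H2 = H ∪ {r0, x1, x2, u, b, p, a, t} := by
    rw [hH2, hH1, Finset.union_assoc, Finset.insert_union, Finset.insert_union,
      Finset.singleton_union]
  have hsub : H ⊆ H2 := by
    rw [hHH]
    exact Finset.subset_union_left
  have mem2 : ∀ z, z = r0 ∨ z = u → z ∈ H2 := by
    intro z hz
    rw [hHH]
    rcases hz with rfl | rfl <;> simp
  have ncl : ∀ z, Clr G H z → ¬ Clr G H2 z → ∃ k, (k = r0 ∨ k = x1 ∨ k = x2 ∨ k = u ∨ k = b ∨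
      k = p ∨ k = a ∨ k = t) ∧ (z = k ∨ G.Adj z k) := by
    intro z h1 h2
    rw [hHH] at h2
    obtain ⟨k, hk, h⟩ := nclr h1 h2
    simp only [Finset.mem_insert, Finset.mem_singleton] at hk
    exact ⟨k, hk, h⟩
  -- the `S`-vertices which are lost
  have nS : ∀ z, tS G c z → Clr G H z → ¬ Clr G H2 z → z = r0 ∨ z = u ∨ z = v ∨ z = t ∨
      (G.Adj x1 z ∧ z ≠ r0) ∨ (G.Adj x2 z ∧ z ≠ r0) ∨ (G.Adj b z ∧ z ≠ u) := by
    intro z zS h1 h2
    obtain ⟨k, hk, h⟩ := ncl z h1 h2
    by_cases hzr : z = r0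
    · exact Or.inl hzr
    by_cases hzu : z = u
    · exact Or.inr (Or.inl hzu)
    rcases hk with rfl | rfl | rfl | rfl | rfl | rfl | rfl | rfl
    · rcases h with h | h
      · exact (hzr h).elim
      · rcases (Sr.n3.nb z).1 h.symm with h3 | h3 | h3
        · exact Or.inr (Or.inr (Or.inr (Or.inl h3)))
        · exact (ne_tf tx1.1 zS.1 h3.symm).elim
        · exact (ne_tf tx2.1 zS.1 h3.symm).elim
    · rcases h with h | h
      · exact (ne_tf tx1.1 zS.1 h.symm).elim
      · exact Or.inr (Or.inr (Or.inr (Or.inr (Or.inl ⟨h.symm, hzr⟩))))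
    · rcases h with h | h
      · exact (ne_tf tx2.1 zS.1 h.symm).elim
      · exact Or.inr (Or.inr (Or.inr (Or.inr (Or.inr (Or.inl ⟨h.symm, hzr⟩)))))
    · rcases h with h | h
      · exact (hzu h).elim
      · rcases (Su.n3.nb z).1 h.symm with h3 | h3 | h3
        · exact Or.inr (Or.inr (Or.inl h3))
        · exact (ne_tf ta.1 zS.1 h3.symm).elim
        · exact (ne_tf tb.1 zS.1 h3.symm).elim
    · rcases h with h | h
      · exact (ne_tf tb.1 zS.1 h.symm).elim
      · exact Or.inr (Or.inr (Or.inr (Or.inr (Or.inr (Or.inr ⟨h.symm, hzu⟩)))))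
    · rcases h with h | h
      · exact (B_not_S hp zS h.symm).elim
      · exact (bb_no hp zS.1 h.symm).elim
    · rcases h with h | h
      · exact (ne_tf ta.1 zS.1 h.symm).elim
      · rcases (A.n3.nb z).1 h.symm with h3 | h3 | h3
        · exact (hzu h3).elim
        · exact (B_not_S hp zS h3.symm).elim
        · exact Or.inr (Or.inr (Or.inr (Or.inl h3)))
    · rcases h with h | h
      · exact Or.inr (Or.inr (Or.inr (Or.inl h)))
      · rcases (St.n3.nb z).1 h.symm with h3 | h3 | h3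
        · exact (hzr h3).elim
        · exact (ne_tf ta.1 zS.1 h3.symm).elim
        · exact (ne_tf hq.1 zS.1 h3.symm).elim
  have nta : ∀ z, tA G c z → Clr G H z → ¬ Clr G H2 z → z = x1 ∨ z = x2 ∨ z = a ∨ z = b ∨
      (G.Adj z p ∧ z ≠ a) := by
    intro z hz h1 h2
    obtain ⟨k, hk, h⟩ := ncl z h1 h2
    by_cases hza : z = a
    · exact Or.inr (Or.inr (Or.inl hza))
    rcases hk with rfl | rfl | rfl | rfl | rfl | rfl | rfl | rfl
    · rcases h with h | h
      · exact (ne_tf hz.1 Sr.cs h).elim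
      · rcases (Sr.n3.nb z).1 h.symm with h3 | h3 | h3
        · exact (ne_tf hz.1 htS.1 h3).elim
        · exact Or.inl h3
        · exact Or.inr (Or.inl h3)
    · rcases h with h | h
      · exact Or.inl h
      · exact (aa_no hz tx1.1 h).elim
    · rcases h with h | h
      · exact Or.inr (Or.inl h)
      · exact (aa_no hz tx2.1 h).elim
    · rcases h with h | h
      · exact (ne_tf hz.1 huS.1 h).elim
      · rcases (Su.n3.nb z).1 h.symm with h3 | h3 | h3
        · exact (ne_tf hz.1 Su.cm h3).elim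
        · exact (hza h3).elim
        · exact Or.inr (Or.inr (Or.inr (Or.inl h3)))
    · rcases h with h | h
      · exact Or.inr (Or.inr (Or.inr (Or.inl h)))
      · exact (aa_no hz tb.1 h).elim
    · rcases h with h | h
      · exact (ne_tf hz.1 hp.1 h).elim
      · exact Or.inr (Or.inr (Or.inr (Or.inr ⟨h, hza⟩)))
    · rcases h with h | h
      · exact (hza h).elim
      · exact (aa_no hz ta.1 h).elim
    · rcases h with h | h
      · exact (ne_tf hz.1 htS.1 h).elim
      · rcases (St.n3.nb z).1 h.symm with h3 | h3 | h3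
        · exact (ne_tf hz.1 Sr.cs h3).elim
        · exact (hza h3).elim
        · rw [h3] at hz
          exact (tA_not_tQ hz hq).elim
  -- no live slot at a free neighbour of `x1`, `x2` other than `r`
  have np : ∀ f z, LS G c H f z → (G.Adj x1 f ∨ G.Adj x2 f) → f = r0 := by
    intro f z hf h
    by_contra hne
    rcases h with h | h
    · exact no_partner F hP2 hP3 hM0 hr Sr tx1 hf hne h
    · exact no_partner F hP2 hP3 hM0 hr (sv_swap Sr) tx2 hf hne h
  -- the lists
  obtain ⟨L1, c1, k1⟩ := st_DW V G c H F u v a p hl huv hap A.n3.xy.symm (bare_B F hp)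
  obtain ⟨L2, c2, k2⟩ := own_slots F (H := H) v
  obtain ⟨L3, c3, k3, l3⟩ := spoil F (H := H) hP2 hP3 hu hub tb
  obtain ⟨L4, c4, k4, l4⟩ := spoil F (H := H) hP2 hP3 hrF hrx1 tx1
  obtain ⟨L5, c5, k5, l5⟩ := spoil F (H := H) hP2 hP3 hrF hrx2 tx2
  have i1 : ∀ p, p ∈ L1 → p ∈ L1 ∪ L2 ∪ L3 ∪ L4 ∪ L5 ∪ {(u, a)} := fun p hp =>
    Finset.mem_union_left _ (Finset.mem_union_left _ (Finset.mem_union_left _
      (Finset.mem_union_left _ (Finset.mem_union_left _ hp))))
  have i2 : ∀ p, p ∈ L2 → p ∈ L1 ∪ L2 ∪ L3 ∪ L4 ∪ L5 ∪ {(u, a)} := fun p hp =>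
    Finset.mem_union_left _ (Finset.mem_union_left _ (Finset.mem_union_left _
      (Finset.mem_union_left _ (Finset.mem_union_right _ hp))))
  have i3 : ∀ p, p ∈ L3 → p ∈ L1 ∪ L2 ∪ L3 ∪ L4 ∪ L5 ∪ {(u, a)} := fun p hp =>
    Finset.mem_union_left _ (Finset.mem_union_left _ (Finset.mem_union_left _
      (Finset.mem_union_right _ hp)))
  have i4 : ∀ p, p ∈ L4 → p ∈ L1 ∪ L2 ∪ L3 ∪ L4 ∪ L5 ∪ {(u, a)} := fun p hp =>
    Finset.mem_union_left _ (Finset.mem_union_left _ (Finset.mem_union_right _ hp))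
  have i5 : ∀ p, p ∈ L5 → p ∈ L1 ∪ L2 ∪ L3 ∪ L4 ∪ L5 ∪ {(u, a)} := fun p hp =>
    Finset.mem_union_left _ (Finset.mem_union_right _ hp)
  have slots : ∀ f z, LS G c H f z → f = r0 ∨ f = u ∨ f = v →
      (f, z) ∈ L1 ∪ L2 ∪ L3 ∪ L4 ∪ L5 ∪ {(u, a)} := by
    intro f z h1 h2
    rcases h2 with rfl | rfl | rfl
    · rcases (Sr.n3.nb z).1 h1.2.2.1 with h | h | h
      · exact (ne_tf h1.2.1.1 htS.1 h).elim
      · subst h
        exact i4 _ (k4 h1)
      · subst h
        exact i5 _ (k5 h1)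
    · rcases (Su.n3.nb z).1 h1.2.2.1 with h | h | h
      · exact (ne_tf h1.2.1.1 Su.cm h).elim
      · subst h
        exact Finset.mem_union_right _ (Finset.mem_singleton_self _)
      · subst h
        exact i3 _ (k3 h1)
    · exact i2 _ (k2 z h1)
  constructor
  · -- good slots
    have hsubL : good G c H \ good G c H2 ⊆ L1 ∪ L2 ∪ L3 ∪ L4 ∪ L5 ∪ {(u, a)} := by
      rintro ⟨f, z⟩ hfz
      unfold good at hfz
      simp only [Finset.mem_sdiff, Finset.mem_filter, Finset.mem_univ, true_and] at hfz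
      obtain ⟨g1, g2⟩ := hfz
      have hls := g1.1
      by_cases hf4 : f = r0 ∨ f = u ∨ f = v
      · exact slots f z hls hf4
      have hfr : f ≠ r0 := fun e => hf4 (Or.inl e)
      have hfu : f ≠ u := fun e => hf4 (Or.inr (Or.inl e))
      have hfv : f ≠ v := fun e => hf4 (Or.inr (Or.inr e))
      rcases gl F hsub g1 g2 with h | h | ⟨t', r1, h1, h2, h3, h4, h5, h6⟩ |
        ⟨g, y, m, v', w, w', Q, h1, h2, h3, h4, h5, h6⟩
      · exfalso
        have fF := hls.1
        rcases nS f (fr_tS F fF) hls.2.2.2.1 h with h1 | h1 | h1 | h1 | ⟨h1, h2⟩ | ⟨h1, h2⟩ | ⟨h1, h2⟩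
        · exact hfr h1
        · exact hfu h1
        · exact hfv h1
        · rw [h1] at fF
          exact htF fF
        · exact h2 (np f z hls (Or.inl h1))
        · exact h2 (np f z hls (Or.inr h1))
        · exact h2 (hbf f fF h1)
      · rcases nta z hls.2.1 hls.2.2.2.2 h with h1 | h1 | h1 | h1 | ⟨h1, h2⟩
        · subst h1
          exact (hfr (np f z hls (Or.inl hls.2.2.1.symm))).elim
        · subst h1
          exact (hfr (np f z hls (Or.inr hls.2.2.1.symm))).elim
        · subst h1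
          exact (hfu (haf f hls.1 hls.2.2.1.symm)).elim
        · subst h1
          exact (hfu (hbf f hls.1 hls.2.2.1.symm)).elim
        · exact i1 _ (k1 f z hls h1 h2 hfu hfv)
      · -- a vertex of `T1` lost
        exfalso
        have key : ∀ z', tA G c z' → G.Adj z' t' → z = z' := by
          intro z' tz' hz'
          obtain ⟨r2, q2, S2, hq2⟩ := t1_sv F h3.1 h1.symm hls.2.1
          rcases (S2.n3.nb z').1 hz'.symm with h9 | h9 | h9
          · exact (ne_tf tz'.1 S2.cm h9).elim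
          · exact h9.symm
          · rw [← h9] at hq2
            exact (tA_not_tQ tz' hq2).elim
        rcases nS t' (t1_tS F h3.1) h3.2 h4 with h7 | h7 | h7 | h7 | ⟨h7, h8⟩ | ⟨h7, h8⟩ | ⟨h7, h8⟩
        · exact fr_not_T1 F hrF (h7 ▸ h3.1)
        · exact fr_not_T1 F hu (h7 ▸ h3.1)
        · subst h7
          exact h6 (by rw [rm_uniq (F.mu1 _) h5 huv.symm]; exact mem2 _ (Or.inr rfl))
        · subst h7
          exact h6 (by rw [sv_mate F St h5]; exact mem2 _ (Or.inl rfl))
        · have e := key x1 tx1 h7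
          subst e
          exact hfr (np f z hls (Or.inl hls.2.2.1.symm))
        · have e := key x2 tx2 h7
          subst e
          exact hfr (np f z hls (Or.inr hls.2.2.1.symm))
        · have e := key b tb h7
          subst e
          exact hfu (hbf f hls.1 hls.2.2.1.symm)
      · -- the mates of the square
        have gL : Live G c H g := h2.mono hsub
        have n1 : ¬ Live G c H v' := fun h => hP3 ⟨f, g, z, y, m, v', w, w', Q, LS.live F hls, gL,
          hls, h⟩
        have n2 : ¬ Live G c H m := fun h => hP3 ⟨g, f, z, y, v', m, w, w', Q.swapS, gL,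
          LS.live F hls, sqr_ls Q hls gL, h⟩
        have hav : Avl G c H m := by
          rcases h3 with (h3 | h3) | h3
          · exact (n2 h3).elim
          · exact h3
          · exact (n1 h3).elim
        have hcl : ¬ Clr G H2 m := fun h => h5 ⟨hav.1, h⟩
        have mf : ∀ m, m ∈ H2 → f ≠ m ∧ ¬ G.Adj f m := fun m hm =>
          ⟨fun e => h1.2.2.2.1.1 (e ▸ hm), fun e => h1.2.2.2.1.2 m e hm⟩
        have hfm : Rm G c f m := sv_rm Q.h1
        rcases nS m (t1_tS F hav.1) hav.2 hcl with h7 | h7 | h7 | h7 | ⟨h7, h8⟩ | ⟨h7, h8⟩ | ⟨h7, h8⟩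
        · exact (fr_not_T1 F hrF (h7 ▸ hav.1)).elim
        · exact (fr_not_T1 F hu (h7 ▸ hav.1)).elim
        · subst h7
          exact (hfu (rm_uniq (F.mu1 _) hfm.symm huv.symm)).elim
        · subst h7
          exact (hfr (rm_uniq (F.mu1 _) hfm.symm htr)).elim
        · exact i4 _ (l4 f z g y m v' w w' Q hls gL hav.1 h7)
        · exact i5 _ (l5 f z g y m v' w w' Q hls gL hav.1 h7)
        · exact i3 _ (l3 f z g y m v' w w' Q hls gL hav.1 h7)
    refine le_trans (Finset.card_le_card hsubL) ?_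
    have d1 := Finset.card_union_le (L1 ∪ L2 ∪ L3 ∪ L4 ∪ L5) {(u, a)}
    have d2 := Finset.card_union_le (L1 ∪ L2 ∪ L3 ∪ L4) L5
    have d3 := Finset.card_union_le (L1 ∪ L2 ∪ L3) L4
    have d4 := Finset.card_union_le (L1 ∪ L2) L3
    have d5 := Finset.card_union_le L1 L2
    have d6 : ({(u, a)} : Finset (V × V)).card = 1 := Finset.card_singleton _
    omega
  · -- live vertices
    set P : Finset V := Finset.univ.filter
      (fun f => f ∈ Fr G c ∧ f ≠ r0 ∧ (G.Adj x1 f ∨ G.Adj x2 f)) with hP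
    have hPc : P.card ≤ 1 := by
      refine Finset.card_le_one.2 ?_
      intro f hf g hg
      rw [hP, Finset.mem_filter] at hf hg
      exact partner_uniq F Sr tx1 tx2 hrF hf.2.1 hf.2.2.1 hf.2.2.2 hg.2.1 hg.2.2.1 hg.2.2.2
    have hsubL : live G c H \ live G c H2 ⊆ ({r0, u, v} : Finset V) ∪ P := by
      intro f hf
      unfold live at hf
      simp only [Finset.mem_sdiff, Finset.mem_filter, Finset.mem_univ, true_and] at hf
      obtain ⟨h1, h2⟩ := hf
      have h3 := nS f (fr_tS F h1.1) h1.2 (fun h => h2 ⟨h1.1, h⟩)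
      simp only [Finset.mem_union, Finset.mem_insert, Finset.mem_singleton, hP,
        Finset.mem_filter, Finset.mem_univ, true_and]
      rcases h3 with h3 | h3 | h3 | h3 | ⟨h3, h4⟩ | ⟨h3, h4⟩ | ⟨h3, h4⟩
      · exact Or.inl (Or.inl h3)
      · exact Or.inl (Or.inr (Or.inl h3))
      · exact Or.inl (Or.inr (Or.inr h3))
      · rw [h3] at h1
        exact (htF h1.1).elim
      · exact Or.inr ⟨h1.1, h4, Or.inl h3⟩
      · exact Or.inr ⟨h1.1, h4, Or.inr h3⟩
      · exact (h4 (hbf f h1.1 h3)).elim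
    refine le_trans (Finset.card_le_card hsubL) ?_
    have d1 := Finset.card_union_le ({r0, u, v} : Finset V) P
    have d2 : ({r0, u, v} : Finset V).card ≤ 3 := Finset.card_le_three
    omega

end Pool.Agent.Helper54.MC
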