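import Pool.Agent.Helper92.MC.GCnt
import Pool.Agent.Helper33.MC.GBas
import Pool.Agent.Helper9.MC.GW

/-!
MP_4042d8_co, section D, part II: Case 4 (row G_C4).
-/

set_option autoImplicit false
set_option linter.unusedSectionVars false
set_option linter.unusedSimpArgs false
set_option linter.unusedVariables false

namespace Pool.Agent.Helper54.MC.G4

open Pool.Agent.Helper27.MC hiding Fr T1 ter
open Pool.Agent.Helper51.MC Pool.Agent.Helper88.MC Pool.Agent.Helper64.MC
open Pool.Agent.Helper91.MC Pool.Agent.Helper33.MC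
open Pool.Agent.Helper79.MC (Sqg)
open Pool.Agent.Helper91.MC.GK (Khb)
open Pool.Agent.Helper96.MC (Td Apx Lx Exm Lp Lpp)
open Pool.Agent.Helper92.MC (loss_of not_fr_t1)

variable {V : Type} [Fintype V] [DecidableEq V] {G : SimpleGraph V} [DecidableRel G.Adj]
  {c : V → Bool} {j : ℕ} {L : V → V → Prop} {H H' : Finset V}

theorem nclr {K : Finset V} {v : V} (h : Clr G H v) (h' : ¬ Clr G (H ∪ K) v) :
    ∃ k ∈ K, v = k ∨ G.Adj v k := by
  by_contra hn
  push Not at hn
  apply h'
  refine ⟨?_, ?_⟩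
  · intro h1
    rcases Finset.mem_union.1 h1 with h2 | h2
    · exact h.1 h2
    · exact (hn v h2).1 rfl
  · intro w hw h1
    rcases Finset.mem_union.1 h1 with h2 | h2
    · exact h.2 w hw h2
    · exact (hn w h2).2 hw

theorem aa_no {x y : V} (hx : tA G c x) (hy : c y = true) : ¬ G.Adj x y :=
  fun h => nomate hx.2 y ⟨h, by rw [hy, hx.1]⟩

theorem bb_no {x y : V} (hx : tB G c x) (hy : c y = false) : ¬ G.Adj x y :=
  fun h => nomate hx.2 y ⟨h, by rw [hy, hx.1]⟩

theorem ne_tf {x y : V} (hx : c x = true) (hy : c y = false) : x ≠ y := by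
  rintro rfl
  rw [hx] at hy
  cases hy

theorem B_not_S {x y : V} (hx : tB G c x) (hy : tS G c y) : x ≠ y := by
  rintro rfl
  have h1 := hx.2
  have h2 := hy.2
  omega

/-- the slots of a vertex -/
theorem own2 (hG : G.IsRegularOfDegree 3) (H : Finset V) (v : V) :
    ∃ S : Finset (V × V), S.card ≤ 2 ∧ ∀ z, LS G c H v z → (v, z) ∈ S := by
  classical
  by_cases h : v ∈ Fr G c
  · obtain ⟨m, x, y, nb, cm, cx, cy, hxy, hmx, hmy⟩ := s_data hG (mem_Fr.1 h).1
    refine ⟨{(v, x), (v, y)}, Finset.card_le_two, fun z hz => ?_⟩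
    rcases (nb z).1 hz.2.2.1 with h1 | h1 | h1
    · have h2 := hz.2.1.1
      rw [h1, cm] at h2
      cases h2
    · rw [h1]; simp
    · rw [h1]; simp
  · exact ⟨∅, by simp, fun z hz => (h hz.1).elim⟩

theorem fr_sg (F : FxG G c j L) {f x : V} (hf : f ∈ Fr G c) (h : G.Adj f x) (hx : tA G c x) :
    ∃ v y, Sv G c f v x y ∧ tA G c y := by
  obtain ⟨v, y, hs⟩ := sv_ex F.reg (mem_Fr.1 hf).1 h hx.1
  exact ⟨v, y, hs, ((sv_Fr F.mu1 hs).1 hf).2⟩

theorem t1_sg (F : FxG G c j L) {t x : V} (hf : t ∈ T1 G c) (h : G.Adj t x) (hx : tA G c x) :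
    ∃ r q, Sv G c t r x q ∧ tQ G c q := by
  obtain ⟨r, q, hs⟩ := sv_ex F.reg (mem_T1.1 hf).1 h hx.1
  rcases (sv_T1 F.mu1 hs).1 hf with h1 | h1
  · exact ⟨r, q, hs, h1.2⟩
  · exact (tA_not_tQ hx h1.1).elim

/-- the `A`-neighbour of a vertex of type `T1` is unique -/
theorem t1_A (F : FxG G c j L) {t x y : V} (hf : t ∈ T1 G c) (hx : G.Adj t x) (tx : tA G c x)
    (hy : G.Adj t y) (ty : tA G c y) : y = x := by
  obtain ⟨r, q, hs, hq⟩ := t1_sg F hf hx tx
  rcases (hs.n3.nb y).1 hy with h | h | h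
  · have := ty.1
    rw [h, hs.cm] at this
    cases this
  · exact h
  · rw [h] at ty
    exact (tA_not_tQ ty hq).elim

/-- the free neighbours of a hub of a square -/
theorem sqg_only {s1 s2 a b v1 v2 za zb f : V} (h : Sqg G c s1 s2 a b v1 v2 za zb)
    (hf : f ∈ Fr G c) (ha : G.Adj a f) : f = s1 ∨ f = s2 := by
  rcases (h.ha.n3.nb f).1 ha with h1 | h1 | h1
  · exact Or.inl h1
  · exact Or.inr h1
  · exfalso
    subst h1
    rcases h.ka with h2 | ⟨h2, h3⟩ | ⟨h2, h3⟩
    · have h4 := (mem_Fr.1 hf).1.2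
      have h5 := h2.2
      omega
    · rw [← h2] at h3
      exact not_fr_t1 h3 hf
    · rw [← h2] at h3
      exact not_fr_t1 h3 hf

/-- an `N''`-slot is an `N`-slot -/
theorem q0_pn (F : FxG G c j L) (h : Q0G G c H) : PN G c H := by
  obtain ⟨u, v, a, w, hl, huv, hv, hav, haw, hw⟩ := h
  refine ⟨u, a, hl, ?_⟩
  intro z hz hne
  obtain ⟨z', hn⟩ := Pool.Agent.Helper96.MC.n3_of2 F.reg hl.2.2.1.symm hav
    (huv.ne)
  have hwu : w ≠ u := by
    rintro rfl
    have h4 := (mem_Fr.1 hl.1).1.2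
    have h5 := hw.2
    omega
  have hwv : w ≠ v := by
    rintro rfl
    have h4 := (mem_Fr.1 hv.1).1.2
    have h5 := hw.2
    omega
  have hz' : z' = w := by
    rcases (hn.nb w).1 haw with h1 | h1 | h1
    · exact (hwu h1).elim
    · exact (hwv h1).elim
    · exact h1.symm
  subst hz'
  rcases (hn.nb z).1 hz with h1 | h1 | h1
  · exact (hne h1).elim
  · subst h1
    intro y hy
    exact Or.inl (rm_uniq (F.mu1 _) hy huv.symm)
  · subst h1
    intro y hy
    exact (nomate hw.2 y hy).elim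

/-- a source is not the mate of a free vertex -/
theorem src_ne (F : FxG G c j L) {v y m : V} (h : L v y) (hm : Rm G c y m) : m ∉ Fr G c := by
  intro hf
  obtain ⟨hy, w, p, y', n, n', d, T, _⟩ := F.lx.src v y h
  have hr : Rm G c y y' := ⟨(T.nx.nb y').2 (by simp), by rw [T.cx', T.cx]⟩
  have e : m = y' := rm_uniq (F.mu1 y) hm hr
  subst e
  obtain ⟨v0, b0, S0⟩ := sv_ex F.reg (mem_Fr.1 hf).1 ((T.nx'.nb w).2 (by simp)) T.cq
  have h1 := ((sv_Fr F.mu1 S0).1 hf).1
  have h2 : Rm G c w p := ⟨(T.nq.nb p).2 (by simp), by rw [T.cp, T.cq]⟩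
  exact nomate h1.2 p h2

/-- the third neighbour of a hub `z` of a live free vertex `s`, with an available vertex `t'` of
`T1` at `z` whose mate `f` is not adjacent to `z` -/
theorem third (F : FxG G c j L) {s z t' f : V} (hls : LS G c H s z) (hzt : G.Adj z t')
    (ht : t' ∈ T1 G c) (htf : Rm G c t' f) (hfs : f ≠ s) (hzf : ¬ G.Adj z f) (hfH : f ∉ H) :
    MSG G c H s z t' f := by
  have hts : t' ≠ s := by
    rintro rfl
    exact not_fr_t1 ht hls.1
  refine ⟨hls, hzt, hts, ht, htf, hfs, hfH, ?_⟩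
  intro w hzw hws hwt m hwm
  obtain ⟨y, hN⟩ := Pool.Agent.Helper96.MC.n3_of2 F.reg hls.2.2.1.symm hzt (fun e => hts e.symm)
  have e : y = w := by
    rcases (hN.nb w).1 hzw with h1 | h1 | h1
    · exact (hws h1).elim
    · exact (hwt h1).elim
    · exact h1.symm
  subst e
  have tz := hls.2.1
  have hav : Av G c z s t' y := by
    obtain ⟨p1, p2, A⟩ := av_ex F.reg tz hls.2.2.1.symm
    rcases (A.n3.nb t').1 hzt with h1 | h1 | h1
    · exact (hts h1).elim
    · subst h1
      rcases (A.n3.nb y).1 hzw with h2 | h2 | h2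
      · exact (hws h2).elim
      · exact (hwt h2).elim
      · subst h2
        exact A
    · subst h1
      rcases (A.n3.nb y).1 hzw with h2 | h2 | h2
      · exact (hws h2).elim
      · subst h2
        exact av_swap' A
      · exact (hwt h2).elim
  have hyS : tS G c y := by
    rcases tB_or_tS F.mu1 hav.cz with h2 | h2
    · exact (nomate h2.2 m hwm).elim
    · exact h2
  rcases F.f2 z s t' y hav tz (mem_Fr.1 hls.1).1 (mem_T1.1 ht).1 hyS with h1 | h1 | h1
  · exact (hfs (rm_uniq (F.mu1 _) htf h1.symm)).elim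
  · exact Or.inl (rm_uniq (F.mu1 _) hwm h1.symm)
  · exact (hzf ((rm_uniq (F.mu1 _) htf h1) ▸ hzw)).elim

/-- a source at a hub of the free vertex `u`: then we are in the situation (L''), `u` has a free
mate, and the other source is given -/
theorem src_hub (F : FxG G c j L) {m t' u b : V} (hL : L m t') (hbt : G.Adj b t') (tb : tA G c b)
    (hu : u ∈ Fr G c) (hbu : G.Adj b u) :
    ∃ w y n v z1 z2, Rm G c u v ∧ v ∈ Fr G c ∧ L m y ∧ N3 G b t' u z1 ∧ N3 G n y v z2 ∧ tB G c z1 ∧
      tB G c z2 ∧ tA G c n ∧ N3 G y w t' n ∧ G.Adj t' w := by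
  have ht := (F.lx.src m t' hL).1
  have htu : t' ≠ u := by
    rintro rfl
    exact not_fr_t1 ht hu
  have huS := (mem_Fr.1 hu).1
  rcases F.lx.two m t' hL with ⟨y, n, h1, h2, h3, h4⟩ |
    ⟨w, p, y1, y2, n1, n2, u1, u2, z1, z2, hT, tn1, tn2, h1, N1, N2, h2, f1, f2, B1, B2⟩
  · exfalso
    have e : t' = y := (h1 t').1 hL
    subst e
    have e2 : b = n := t1_A F ht h2 h3 hbt.symm tb
    subst e2
    exact h4 u hu hbu
  · have nyn1 : G.Adj y1 n1 := ((N1.nb y1).2 (by simp)).symm
    have nyn2 : G.Adj y2 n2 := ((N2.nb y2).2 (by simp)).symm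
    rcases (h1 t').1 hL with e | e
    · subst e
      have e2 : b = n1 := t1_A F ht nyn1 tn1 hbt.symm tb
      subst e2
      have e3 : u = u1 := by
        rcases (N1.nb u).1 hbu with h | h | h
        · exact (htu h.symm).elim
        · exact h
        · exact (B_not_S B1 huS h.symm).elim
      subst e3
      exact ⟨w, y2, n2, u2, z1, z2, h2, f2, (h1 y2).2 (Or.inr rfl), N1, N2, B1, B2, tn2, hT.nx',
        (hT.nx.nb w).2 (by simp)⟩
    · subst e
      have e2 : b = n2 := t1_A F ht nyn2 tn2 hbt.symm tb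
      subst e2
      have e3 : u = u2 := by
        rcases (N2.nb u).1 hbu with h | h | h
        · exact (htu h.symm).elim
        · exact h
        · exact (B_not_S B2 huS h.symm).elim
      subst e3
      exact ⟨w, y1, n1, u1, z2, z1, h2.symm, f1, (h1 y1).2 (Or.inl rfl), N2, N1, B2, B1, tn1,
        hT.nx, (hT.nx'.nb w).2 (by simp)⟩

/-- row G_C4 -/
theorem gc4_of (GGL : ST_GGL) (GSP : ST_GSP) (GW : ST_GW) : ST_GC4 := by
  intro V _ _ G _ c j L H F hI hPN hQ2 hQ3 hQ4
  classical
  obtain ⟨u, a, t, r, hM, hr⟩ := hQ4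
  have hM0 := hM
  obtain ⟨hl, hat, htu, ht, htr, hru, hrH, hbare⟩ := hM
  have hm := F.mu1
  have hu := hl.1
  have ta := hl.2.1
  have hua := hl.2.2.1
  have cu := hl.2.2.2.1
  have ca := hl.2.2.2.2
  obtain ⟨v, b, Su, tb⟩ := fr_sg F hu hua ta
  have huS := (mem_Fr.1 hu).1
  have htS := (mem_T1.1 ht).1
  have hrF := hr.1
  have hrS := (mem_Fr.1 hrF).1
  have htF : t ∉ Fr G c := not_fr_t1 ht
  obtain ⟨p, A⟩ : ∃ p, Av G c a u p t := by
    obtain ⟨y, z, A⟩ := av_ex F.reg ta hua.symm
    rcases (A.n3.nb t).1 hat with h | h | h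
    · exact (htu h).elim
    · subst h; exact ⟨z, av_swap' A⟩
    · subst h; exact ⟨y, A⟩
  have hap : G.Adj a p := (A.n3.nb p).2 (by tauto)
  have hpu : p ≠ u := A.n3.xy.symm
  have hp : Bare G c H u p := hbare p hap hpu A.n3.yz
  have cp : c p = false := A.cy
  obtain ⟨r0, q, St, hq⟩ := t1_sg F ht hat.symm ta
  have e0 : r0 = r := rm_uniq (hm t) (sv_rm St) htr
  subst e0
  have hub : G.Adj u b := (Su.n3.nb b).2 (by tauto)
  have huv : Rm G c u v := sv_rm Su
  -- the data of `r`
  obtain ⟨x, y, Sr, tx, ty⟩ : ∃ x y, Sv G c r0 t x y ∧ tA G c x ∧ tA G c y := by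
    obtain ⟨m, x1, x2, nb, cm, cx, cy, hxy, hmx, hmy⟩ := s_data F.reg hrS
    have hsv : Sv G c r0 m x1 x2 := ⟨hrS.1, cm, cx, cy, ⟨nb, hmx, hmy, hxy⟩⟩
    have e : m = t := rm_uniq (hm r0) (sv_rm hsv) htr.symm
    subst e
    exact ⟨x1, x2, hsv, ((sv_Fr hm hsv).1 hrF).1, ((sv_Fr hm hsv).1 hrF).2⟩
  have hra : ¬ G.Adj a r0 := by
    intro h
    rcases (A.n3.nb r0).1 h with h1 | h1 | h1
    · exact hru h1
    · subst h1
      rcases hp t htr.symm with h2 | h2
      · exact htu h2
      · exact ca.2 t hat h2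
    · exact htr.ne h1.symm
  have hxr : G.Adj x r0 := ((Sr.n3.nb x).2 (by tauto)).symm
  have hyr : G.Adj y r0 := ((Sr.n3.nb y).2 (by tauto)).symm
  have hax : a ≠ x := by rintro rfl; exact hra hxr
  have hay : a ≠ y := by rintro rfl; exact hra hyr
  have hvr : v ≠ r0 := by
    rintro rfl
    exact htu (rm_uniq (hm _) htr.symm huv.symm)
  have hrt : r0 ≠ t := htr.ne.symm
  -- free neighbours of the hubs
  have haf0 : ∀ g, g ∈ Fr G c → G.Adj a g → g ≠ u → g = p := by
    intro g hg h hne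
    rcases (A.n3.nb g).1 h with h1 | h1 | h1
    · exact (hne h1).elim
    · exact h1
    · rw [h1] at hg
      exact (htF hg).elim
  have haf : ∀ g, g ∈ Fr G c → Clr G H g → G.Adj a g → g = u ∨ g = v := by
    intro g hg hc h
    by_cases hne : g = u
    · exact Or.inl hne
    · right
      have e := haf0 g hg h hne
      subst e
      obtain ⟨m, hgm⟩ := exists_mate (mem_Fr.1 hg).1.2
      rcases hp m hgm with h2 | h2
      · subst h2
        exact rm_uniq (hm _) hgm.symm huv
      · exact (hc.2 m hgm.1 h2).elim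
  have hbr : ¬ G.Adj b r0 := by
    intro h
    have n1 : ¬ Rm G c u r0 := fun h1 => hvr (rm_uniq (hm u) huv h1)
    obtain ⟨b', w1, w2, z1, z2, hS⟩ := F.g1 b u r0 tb hu hrF (fun e => hru e.symm) n1 hub.symm h
    have e : b' = a := by
      rcases (Su.n3.nb b').1 ((hS.h1.n3.nb b').2 (by simp)) with h3 | h3 | h3
      · exact (ne_tf hS.tb.1 Su.cm h3).elim
      · exact h3
      · exact (hS.h1.n3.yz h3.symm).elim
    subst e
    exact hra ((hS.h2.n3.nb b').2 (by simp)).symm
  have hbx : b ≠ x := by rintro rfl; exact hbr hxr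
  have hby : b ≠ y := by rintro rfl; exact hbr hyr
  have hbf : ∀ g, g ∈ Fr G c → Clr G H g → G.Adj b g → g = u ∨ g = v := by
    intro g hg hc h
    by_cases hne : g = u
    · exact Or.inl hne
    by_cases hnv : g = v
    · exact Or.inr hnv
    have n1 : ¬ Rm G c u g := fun h1 => hnv (rm_uniq (hm u) h1 huv)
    obtain ⟨b', w1, w2, z1, z2, hS⟩ := F.g1 b u g tb hu hg (fun e => hne e.symm) n1 hub.symm h
    have e : b' = a := by
      rcases (Su.n3.nb b').1 ((hS.h1.n3.nb b').2 (by simp)) with h3 | h3 | h3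
      · exact (ne_tf hS.tb.1 Su.cm h3).elim
      · exact h3
      · exact (hS.h1.n3.yz h3.symm).elim
    subst e
    exact haf g hg hc ((hS.h2.n3.nb b').2 (by simp)).symm
  have hpr : p ≠ r0 := by
    rintro rfl
    exact hra hap
  -- the operations
  set H1 := H ∪ {r0, x, y} with hH1
  set H2 := H1 ∪ {u, b, p, a, t} with hH2
  have o1 : OpU G c H H1 := ⟨r0, t, x, y, Sr, tx, ty, hr.2, rfl⟩
  have cu1 : Clr G H1 u := by
    by_contra hn
    obtain ⟨k, hk, h⟩ := nclr cu hn
    simp only [Finset.mem_insert, Finset.mem_singleton] at hk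
    rcases hk with rfl | rfl | rfl
    · rcases h with h | h
      · exact hru h.symm
      · rcases (Su.n3.nb k).1 h with h1 | h1 | h1
        · exact hvr h1.symm
        · exact ne_tf ta.1 Sr.cs h1.symm
        · exact ne_tf tb.1 Sr.cs h1.symm
    · rcases h with h | h
      · exact ne_tf tx.1 huS.1 h.symm
      · rcases (Su.n3.nb k).1 h with h1 | h1 | h1
        · exact ne_tf tx.1 Su.cm h1
        · exact hax h1.symm
        · exact hbx h1.symm
    · rcases h with h | h
      · exact ne_tf ty.1 huS.1 h.symm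
      · rcases (Su.n3.nb k).1 h with h1 | h1 | h1
        · exact ne_tf ty.1 Su.cm h1
        · exact hay h1.symm
        · exact hby h1.symm
  have ca1 : Clr G H1 a := by
    by_contra hn
    obtain ⟨k, hk, h⟩ := nclr ca hn
    simp only [Finset.mem_insert, Finset.mem_singleton] at hk
    rcases hk with rfl | rfl | rfl
    · rcases h with h | h
      · exact ne_tf ta.1 Sr.cs h
      · exact hra h
    · rcases h with h | h
      · exact hax h
      · exact aa_no ta tx.1 h
    · rcases h with h | h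
      · exact hay h
      · exact aa_no ta ty.1 h
  have o2 : OpN G c H1 H2 := by
    refine ⟨u, v, a, b, p, t, Su, A, ta, tb, cu1, ca1, ?_, ?_, rfl⟩
    · intro z hz
      rcases hp z hz with h | h
      · exact Or.inl h
      · exact Or.inr (by rw [hH1]; exact Finset.mem_union_left _ h)
    · intro z hz
      right
      rw [rm_uniq (hm t) hz htr, hH1]
      simp
  refine ⟨H1, H2, o1, o2, ?_⟩
  have hHH : H2 = H ∪ {r0, x, y, u, b, p, a, t} := by
    rw [hH2, hH1]
    ext z
    simp only [Finset.mem_union, Finset.mem_insert, Finset.mem_singleton]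
    tauto
  have hsub : H ⊆ H2 := by
    rw [hHH]
    exact Finset.subset_union_left
  have m_r : r0 ∈ H2 := by rw [hHH]; simp
  have m_x : x ∈ H2 := by rw [hHH]; simp
  have m_y : y ∈ H2 := by rw [hHH]; simp
  have m_u : u ∈ H2 := by rw [hHH]; simp
  have m_b : b ∈ H2 := by rw [hHH]; simp
  have ncl : ∀ z, Clr G H z → ¬ Clr G H2 z → ∃ k, (k = r0 ∨ k = x ∨ k = y ∨ k = u ∨ k = b ∨
      k = p ∨ k = a ∨ k = t) ∧ (z = k ∨ G.Adj z k) := by
    intro z h1 h2
    rw [hHH] at h2
    obtain ⟨k, hk, h⟩ := nclr h1 h2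
    simp only [Finset.mem_insert, Finset.mem_singleton] at hk
    exact ⟨k, hk, h⟩
  -- false vertices adjacent to the bare vertex
  have hpp : ∀ z, c z = false → Clr G H z → G.Adj z p → z = u := by
    intro z hz hc h
    rcases hp z ⟨h.symm, by rw [hz, cp]⟩ with h1 | h1
    · exact h1
    · exact (hc.1 h1).elim
  have hp0 : ∀ z, tS G c z → Clr G H z → z = p → z = v := by
    intro z hz hc h
    subst h
    obtain ⟨m, hgm⟩ := exists_mate hz.2
    rcases hp m hgm with h2 | h2
    · subst h2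
      exact rm_uniq (hm _) hgm.symm huv
    · exact (hc.2 m hgm.1 h2).elim
  -- no live slot at a free neighbour of `x`, `y` other than `r0`
  have nmr : ∀ f, f ∈ Fr G c → ¬ Rm G c r0 f := by
    intro f hf h
    have e : f = t := rm_uniq (hm r0) h htr.symm
    rw [e] at hf
    exact htF hf
  have sqr : ∀ f, f ∈ Fr G c → (G.Adj x f ∨ G.Adj y f) → f ≠ r0 →
      ∃ v2 za zb, Sqg G c r0 f x y t v2 za zb := by
    intro f hf h hne
    rcases h with h | h
    · exact sqg_of F Sr hrF hf (fun e => hne e.symm) (nmr f hf) h tx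
    · obtain ⟨v2, za, zb, hS⟩ := sqg_of F (sv_swap Sr) hrF hf (fun e => hne e.symm) (nmr f hf) h ty
      exact ⟨v2, zb, za, hS.hub⟩
  have np : ∀ f z, LS G c H f z → (G.Adj x f ∨ G.Adj y f) → f = r0 := by
    intro f z hf h
    by_contra hne
    obtain ⟨v2, za, zb, hS⟩ := sqr f hf.1 h hne
    have hLf : Live G c H f := ⟨hf.1, hf.2.2.2.1⟩
    have hv : Live G c H v2 := by
      by_contra hn
      exact hQ2 ⟨u, a, t, r0, f, x, y, v2, za, zb, hM0, hS, hr, hLf, hn⟩
    rcases (hS.h2.n3.nb z).1 hf.2.2.1 with h1 | h1 | h1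
    · have h2 := hf.2.1.1
      rw [h1, hS.h2.cm] at h2
      cases h2
    · subst h1
      exact hQ3 ⟨r0, f, z, y, t, v2, za, zb, hS, hr, hLf,
        ⟨hr.1, hf.2.1, hxr.symm, hr.2, hf.2.2.2.2⟩, hv⟩
    · subst h1
      exact hQ3 ⟨r0, f, z, x, t, v2, zb, za, hS.hub, hr, hLf,
        ⟨hr.1, hf.2.1, hyr.symm, hr.2, hf.2.2.2.2⟩, hv⟩
  have nfr : ∀ z, z ∈ Fr G c → Clr G H z → ¬ Clr G H2 z → z = r0 ∨ (G.Adj x z ∨ G.Adj y z) ∨
      z = u ∨ z = v := by
    intro z hz h1 h2
    have zS := (mem_Fr.1 hz).1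
    obtain ⟨k, hk, h⟩ := ncl z h1 h2
    rcases hk with rfl | rfl | rfl | rfl | rfl | rfl | rfl | rfl
    · rcases h with h | h
      · exact Or.inl h
      · rcases (Sr.n3.nb z).1 h.symm with h3 | h3 | h3
        · rw [h3] at hz
          exact (htF hz).elim
        · exact (ne_tf tx.1 zS.1 h3.symm).elim
        · exact (ne_tf ty.1 zS.1 h3.symm).elim
    · rcases h with h | h
      · exact (ne_tf tx.1 zS.1 h.symm).elim
      · exact Or.inr (Or.inl (Or.inl h.symm))
    · rcases h with h | h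
      · exact (ne_tf ty.1 zS.1 h.symm).elim
      · exact Or.inr (Or.inl (Or.inr h.symm))
    · rcases h with h | h
      · exact Or.inr (Or.inr (Or.inl h))
      · rcases (Su.n3.nb z).1 h.symm with h3 | h3 | h3
        · exact Or.inr (Or.inr (Or.inr h3))
        · exact (ne_tf ta.1 zS.1 h3.symm).elim
        · exact (ne_tf tb.1 zS.1 h3.symm).elim
    · rcases h with h | h
      · exact (ne_tf tb.1 zS.1 h.symm).elim
      · exact Or.inr (Or.inr (hbf z hz h1 h.symm))
    · rcases h with h | h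
      · exact Or.inr (Or.inr (Or.inr (hp0 z zS h1 h)))
      · exact Or.inr (Or.inr (Or.inl (hpp z zS.1 h1 h)))
    · rcases h with h | h
      · exact (ne_tf ta.1 zS.1 h.symm).elim
      · exact Or.inr (Or.inr (haf z hz h1 h.symm))
    · rcases h with h | h
      · rw [h] at hz
        exact (htF hz).elim
      · rcases (St.n3.nb z).1 h.symm with h3 | h3 | h3
        · exact Or.inl h3
        · exact (ne_tf ta.1 zS.1 h3.symm).elim
        · exact (ne_tf hq.1 zS.1 h3.symm).elim
  have nt1 : ∀ z, z ∈ T1 G c → Clr G H z → ¬ Clr G H2 z → z = t ∨ z = v ∨ G.Adj x z ∨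
      G.Adj y z ∨ G.Adj b z := by
    intro z hz h1 h2
    have zS := (mem_T1.1 hz).1
    have hzF : z ∉ Fr G c := not_fr_t1 hz
    have hzu : z ≠ u := by rintro rfl; exact hzF hu
    obtain ⟨k, hk, h⟩ := ncl z h1 h2
    rcases hk with rfl | rfl | rfl | rfl | rfl | rfl | rfl | rfl
    · rcases h with h | h
      · rw [h] at hzF
        exact (hzF hrF).elim
      · rcases (Sr.n3.nb z).1 h.symm with h3 | h3 | h3
        · exact Or.inl h3
        · exact (ne_tf tx.1 zS.1 h3.symm).elim
        · exact (ne_tf ty.1 zS.1 h3.symm).elim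
    · rcases h with h | h
      · exact (ne_tf tx.1 zS.1 h.symm).elim
      · exact Or.inr (Or.inr (Or.inl h.symm))
    · rcases h with h | h
      · exact (ne_tf ty.1 zS.1 h.symm).elim
      · exact Or.inr (Or.inr (Or.inr (Or.inl h.symm)))
    · rcases h with h | h
      · exact (hzu h).elim
      · rcases (Su.n3.nb z).1 h.symm with h3 | h3 | h3
        · exact Or.inr (Or.inl h3)
        · exact (ne_tf ta.1 zS.1 h3.symm).elim
        · exact (ne_tf tb.1 zS.1 h3.symm).elim
    · rcases h with h | h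
      · exact (ne_tf tb.1 zS.1 h.symm).elim
      · exact Or.inr (Or.inr (Or.inr (Or.inr h.symm)))
    · rcases h with h | h
      · exact Or.inr (Or.inl (hp0 z zS h1 h))
      · exact (hzu (hpp z zS.1 h1 h)).elim
    · rcases h with h | h
      · exact (ne_tf ta.1 zS.1 h.symm).elim
      · rcases (A.n3.nb z).1 h.symm with h3 | h3 | h3
        · exact (hzu h3).elim
        · exact Or.inr (Or.inl (hp0 z zS h1 h3))
        · exact Or.inl h3
    · rcases h with h | h
      · exact Or.inl h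
      · rcases (St.n3.nb z).1 h.symm with h3 | h3 | h3
        · rw [h3] at hzF
          exact (hzF hrF).elim
        · exact (ne_tf ta.1 zS.1 h3.symm).elim
        · exact (ne_tf hq.1 zS.1 h3.symm).elim
  have nta : ∀ z, tA G c z → Clr G H z → ¬ Clr G H2 z → z = x ∨ z = y ∨ z = a ∨ z = b ∨
      (G.Adj z p ∧ z ≠ a) := by
    intro z hz h1 h2
    obtain ⟨k, hk, h⟩ := ncl z h1 h2
    by_cases hza : z = a
    · exact Or.inr (Or.inr (Or.inl hza))
    rcases hk with rfl | rfl | rfl | rfl | rfl | rfl | rfl | rfl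
    · rcases h with h | h
      · exact (ne_tf hz.1 Sr.cs h).elim
      · rcases (Sr.n3.nb z).1 h.symm with h3 | h3 | h3
        · exact (ne_tf hz.1 htS.1 h3).elim
        · exact Or.inl h3
        · exact Or.inr (Or.inl h3)
    · rcases h with h | h
      · exact Or.inl h
      · exact (aa_no hz tx.1 h).elim
    · rcases h with h | h
      · exact Or.inr (Or.inl h)
      · exact (aa_no hz ty.1 h).elim
    · rcases h with h | h
      · exact (ne_tf hz.1 huS.1 h).elim
      · rcases (Su.n3.nb z).1 h.symm with h3 | h3 | h3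
        · exact (ne_tf hz.1 Su.cm h3).elim
        · exact Or.inr (Or.inr (Or.inl h3))
        · exact Or.inr (Or.inr (Or.inr (Or.inl h3)))
    · rcases h with h | h
      · exact Or.inr (Or.inr (Or.inr (Or.inl h)))
      · exact (aa_no hz tb.1 h).elim
    · rcases h with h | h
      · exact (ne_tf hz.1 cp h).elim
      · exact Or.inr (Or.inr (Or.inr (Or.inr ⟨h, hza⟩)))
    · rcases h with h | h
      · exact Or.inr (Or.inr (Or.inl h))
      · exact (aa_no hz ta.1 h).elim
    · rcases h with h | h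
      · exact (ne_tf hz.1 htS.1 h).elim
      · rcases (St.n3.nb z).1 h.symm with h3 | h3 | h3
        · exact (ne_tf hz.1 Sr.cs h3).elim
        · exact Or.inr (Or.inr (Or.inl h3))
        · rw [h3] at hz
          exact (tA_not_tQ hz hq).elim
  have ntq : ∀ z, tQ G c z → Clr G H z → ¬ Clr G H2 z → z = q ∨ G.Adj z p := by
    intro z hz h1 h2
    obtain ⟨k, hk, h⟩ := ncl z h1 h2
    have AA : ∀ w, tA G c w → z = w ∨ G.Adj z w → False := by
      intro w hw h
      rcases h with h | h
      · rw [h] at hz; exact tA_not_tQ hw hz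
      · exact aa_no hw hz.1 h.symm
    rcases hk with rfl | rfl | rfl | rfl | rfl | rfl | rfl | rfl
    · rcases h with h | h
      · exact (ne_tf hz.1 Sr.cs h).elim
      · rcases (Sr.n3.nb z).1 h.symm with h3 | h3 | h3
        · exact (ne_tf hz.1 htS.1 h3).elim
        · rw [h3] at hz; exact (tA_not_tQ tx hz).elim
        · rw [h3] at hz; exact (tA_not_tQ ty hz).elim
    · exact (AA _ tx h).elim
    · exact (AA _ ty h).elim
    · rcases h with h | h
      · exact (ne_tf hz.1 huS.1 h).elim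
      · rcases (Su.n3.nb z).1 h.symm with h3 | h3 | h3
        · exact (ne_tf hz.1 Su.cm h3).elim
        · rw [h3] at hz; exact (tA_not_tQ ta hz).elim
        · rw [h3] at hz; exact (tA_not_tQ tb hz).elim
    · exact (AA _ tb h).elim
    · rcases h with h | h
      · exact (ne_tf hz.1 cp h).elim
      · exact Or.inr h
    · exact (AA _ ta h).elim
    · rcases h with h | h
      · exact (ne_tf hz.1 htS.1 h).elim
      · rcases (St.n3.nb z).1 h.symm with h3 | h3 | h3
        · exact (ne_tf hz.1 Sr.cs h3).elim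
        · rw [h3] at hz; exact (tA_not_tQ ta hz).elim
        · exact Or.inl h3
  -- the lists
  obtain ⟨LA, LQ, c1', c1'', k1, k1', -⟩ := GW V G c j L H F u v a p hl huv hap hpu hp
  have c1 : 2 * LA.card + LQ.card ≤ 5 := c1'' (fun h => hPN (q0_pn F h))
  -- spoiled slots at a hub of `r0`
  have spx : ∀ x' y', Sv G c r0 t x' y' → tA G c x' → tA G c y' →
      ∃ X : Finset (V × V), X.card ≤ 2 ∧ (LS G c H r0 x' → (r0, x') ∈ X) ∧
        ∀ f z, LS G c H f z → f ≠ r0 → SpG G c L H x' f → (f, z) ∈ X := by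
    intro x' y' S' tx' ty'
    have hxr' : G.Adj x' r0 := ((S'.n3.nb x').2 (by tauto)).symm
    by_cases h : LS G c H r0 x'
    · refine ⟨{(r0, x')}, by simp, fun _ => by simp, ?_⟩
      intro f z hf hfr hsp
      exfalso
      obtain ⟨t', g, x1, y1, m, m', zx, zy, h1, h2, h3, h4, h5, h6, h7, h8⟩ := hsp
      rcases h8 with h8 | h8
      · subst h8
        have hmf : Rm G c m f := (sv_rm h3.h1).symm
        have hnot : ¬ G.Adj x' f := by
          intro hxf
          obtain ⟨v2, za, zb, hS⟩ := sqg_of F S' hrF h4.1 (fun e => hfr e.symm) (nmr f h4.1) hxf tx'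
          have e : m = v2 := rm_uniq (hm f) hmf.symm (sv_rm hS.h2)
          subst e
          exact hQ2 ⟨u, a, t, r0, f, x', y', m, za, zb, hM0, hS, hr, h4, h6⟩
        have hms := third F h h1 h2.1 hmf hfr hnot h4.2.1
        exact hQ2 ⟨r0, x', m, f, g, x1, y1, m', zx, zy, hms, h3, h4, h5, h7⟩
      · obtain ⟨w, y2, n, v2, z1, z2, hv2, fv2, -⟩ := src_hub F h8 h1 tx' hrF hxr'
        exact nmr v2 fv2 hv2
    · by_cases h' : ∃ f, f ≠ r0 ∧ SpG G c L H x' f
      · obtain ⟨f0, h1, h2⟩ := h'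
        obtain ⟨X, h3, h4⟩ := own2 (c := c) F.reg H f0
        refine ⟨X, h3, fun hh => (h hh).elim, fun f z k1 k2 k3 => ?_⟩
        have e : f = f0 := GSP V G c j L H F r0 x' f f0 hrF tx' hxr' k2 h1 k3 h2
        subst e
        exact h4 z k1
      · push Not at h'
        exact ⟨∅, by simp, fun hh => (h hh).elim, fun f z _ h1 h2 => (h' f h1 h2).elim⟩
  obtain ⟨X1, d1, p1, q1⟩ := spx x y Sr tx ty
  obtain ⟨X2, d2, p2, q2⟩ := spx y x (sv_swap Sr) ty tx
  -- slots of `v`, the slot `(u,b)`, spoiled slots at `b`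
  obtain ⟨L3, c3, kv, kb, k3⟩ : ∃ L3 : Finset (V × V), L3.card ≤ 4 ∧
      (∀ z, LS G c H v z → (v, z) ∈ L3) ∧ (LS G c H u b → (u, b) ∈ L3) ∧
      ∀ f z, LS G c H f z → f ≠ u →
        (∃ t g x1 y1 m m' zx zy, G.Adj b t ∧ Avl G c H t ∧ Sqg G c f g x1 y1 m m' zx zy ∧
          Live G c H f ∧ Live G c H g ∧ ¬ Live G c H m ∧ ¬ Live G c H m' ∧
          (m = t ∨ (L m t ∧ ∀ y', L m y' → ¬ Avl G c H2 y'))) → (f, z) ∈ L3 := by
    obtain ⟨LV, e1, e2⟩ := own2 (c := c) F.reg H v
    by_cases h : ∃ f, f ≠ u ∧ (∃ t g x1 y1 m m' zx zy, G.Adj b t ∧ Avl G c H t ∧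
          Sqg G c f g x1 y1 m m' zx zy ∧
          Live G c H f ∧ Live G c H g ∧ ¬ Live G c H m ∧ ¬ Live G c H m' ∧
          (m = t ∨ (L m t ∧ ∀ y', L m y' → ¬ Avl G c H2 y')))
    swap
    · refine ⟨LV ∪ {(u, b)}, ?_, fun z hz => Finset.mem_union_left _ (e2 z hz),
        fun _ => Finset.mem_union_right _ (by simp), fun f z _ h1 h2 => (h ⟨f, h1, h2⟩).elim⟩
      have := Finset.card_union_le LV {(u, b)}
      rw [Finset.card_singleton] at this
      omega
    · obtain ⟨f0, h1, t', g, x1, y1, m, m', zx, zy, h2, h3, h4, h5, h6, h7, h8, h9⟩ := h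
      have hsp0 : SpG G c L H b f0 := ⟨t', g, x1, y1, m, m', zx, zy, h2, h3, h4, h5, h6, h7, h8, by
        rcases h9 with h9 | h9
        · exact Or.inl h9
        · exact Or.inr h9.1⟩
      obtain ⟨LF, e3, e4⟩ := own2 (c := c) F.reg H f0
      have uniq : ∀ f z, LS G c H f z → f ≠ u →
        (∃ t g x1 y1 m m' zx zy, G.Adj b t ∧ Avl G c H t ∧ Sqg G c f g x1 y1 m m' zx zy ∧
          Live G c H f ∧ Live G c H g ∧ ¬ Live G c H m ∧ ¬ Live G c H m' ∧
          (m = t ∨ (L m t ∧ ∀ y', L m y' → ¬ Avl G c H2 y'))) → (f, z) ∈ LF := by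
        intro f z k1 k2 k3
        have e : f = f0 := by
          refine GSP V G c j L H F u b f f0 hu tb hub.symm k2 h1 ?_ hsp0
          obtain ⟨t', g, x1, y1, m, m', zx, zy, h2, h3, h4, h5, h6, h7, h8, h9⟩ := k3
          exact ⟨t', g, x1, y1, m, m', zx, zy, h2, h3, h4, h5, h6, h7, h8, by
            rcases h9 with h9 | h9
            · exact Or.inl h9
            · exact Or.inr h9.1⟩
        subst e
        exact e4 z k1
      by_cases hlb : LS G c H u b
      swap
      · refine ⟨LV ∪ LF, ?_, fun z hz => Finset.mem_union_left _ (e2 z hz),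
          fun hh => (hlb hh).elim, fun f z a1 a2 a3 => Finset.mem_union_right _ (uniq f z a1 a2 a3)⟩
        have := Finset.card_union_le LV LF
        omega
      · rcases h9 with h9 | ⟨h9, h10⟩
        · exfalso
          subst h9
          have hmf : Rm G c m f0 := (sv_rm h4.h1).symm
          have hfv : f0 ≠ v := by
            rintro rfl
            have e : m = u := rm_uniq (hm f0) hmf.symm huv.symm
            rw [e] at h3
            exact not_fr_t1 h3.1 hu
          have hnot : ¬ G.Adj b f0 := by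
            intro hbf0
            rcases hbf f0 h5.1 h5.2 hbf0 with h | h
            · exact h1 h
            · exact hfv h
          have hms := third F hlb h2 h3.1 hmf h1 hnot h5.2.1
          exact hQ2 ⟨u, b, m, f0, g, x1, y1, m', zx, zy, hms, h4, h5, h6, h8⟩
        · obtain ⟨w, y2, n, v2, z1, z2, hv2, fv2, L2, N1, N2, B1, B2, tn, Ny, hw⟩ :=
            src_hub F h9 h2 tb hu hub.symm
          have ev : v2 = v := rm_uniq (hm u) hv2 huv
          subst ev
          have ht1 : t' ∈ T1 G c := h3.1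
          have hy1 : y2 ∈ T1 G c := (F.lx.src m y2 L2).1
          have nv : G.Adj n v2 := (N2.nb v2).2 (by simp)
          have ny : G.Adj n y2 := (N2.nb y2).2 (by simp)
          have yt : y2 ≠ t' := by
            have := ((Ny.nb t').2 (by simp)).ne
            exact this
          have rty : Rm G c t' y2 := ⟨((Ny.nb t').2 (by simp)).symm, by
            rw [(mem_T1.1 ht1).1.1, (mem_T1.1 hy1).1.1]⟩
          have hvF : v2 ∉ T1 G c := fun h => not_fr_t1 h fv2
          -- the slot `(v2, n)` is not live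
          have hnl : ¬ LS G c H v2 n := by
            intro hl2
            have cy2 : Clr G H y2 := by
              refine ⟨hl2.2.2.2.2.2 y2 ny, fun k hk => ?_⟩
              rcases (Ny.nb k).1 hk with h | h | h
              · rw [h]; exact h3.2.2 w hw
              · rw [h]; exact h3.2.1
              · rw [h]; exact hl2.2.2.2.2.1
            refine h10 y2 L2 ⟨hy1, ?_⟩
            by_contra hn
            have xcase : ∀ x', tA G c x' → G.Adj x' r0 → G.Adj x' y2 → False := by
              intro x' tx' hx1 hx2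
              have e : n = x' := t1_A F hy1 hx2.symm tx' ny.symm tn
              subst e
              rcases (N2.nb r0).1 hx1 with h | h | h
              · rw [h] at hrF
                exact not_fr_t1 hy1 hrF
              · exact hvr h.symm
              · exact B_not_S B2 hrS h.symm
            rcases nt1 y2 hy1 cy2 hn with h | h | h | h | h
            · have e : t' = r0 := rm_uniq (hm y2) rty.symm (by rw [h]; exact htr)
              rw [e] at ht1
              exact not_fr_t1 ht1 hrF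
            · exact hvF (h ▸ hy1)
            · exact xcase x tx hxr h
            · exact xcase y ty hyr h
            · have e : n = b := t1_A F hy1 h.symm tb ny.symm tn
              subst e
              rcases (N2.nb t').1 h2 with h' | h' | h'
              · exact yt h'.symm
              · exact hvF (h' ▸ ht1)
              · exact B_not_S B2 (mem_T1.1 ht1).1 h'.symm
          obtain ⟨v3, n', S3, tn'⟩ := fr_sg F fv2 nv.symm tn
          refine ⟨{(v2, n')} ∪ LF ∪ {(u, b)}, ?_, ?_, fun _ => Finset.mem_union_right _ (by simp),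
            fun f z a1 a2 a3 => Finset.mem_union_left _ (Finset.mem_union_right _
              (uniq f z a1 a2 a3))⟩
          · have d3 := Finset.card_union_le ({(v2, n')} ∪ LF) {(u, b)}
            have d4 := Finset.card_union_le {(v2, n')} LF
            rw [Finset.card_singleton] at d3 d4
            omega
          · intro z hz
            rcases (S3.n3.nb z).1 hz.2.2.1 with h | h | h
            · exact (ne_tf hz.2.1.1 S3.cm h).elim
            · rw [h] at hz
              exact (hnl hz).elim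
            · rw [h]
              exact Finset.mem_union_left _ (Finset.mem_union_left _ (by simp))
  set P := X1 ∪ X2 ∪ L3 ∪ LA ∪ {(u, a)} with hP
  have i1 : ∀ q, q ∈ X1 → q ∈ P := fun q h => Finset.mem_union_left _ (Finset.mem_union_left _
    (Finset.mem_union_left _ (Finset.mem_union_left _ h)))
  have i2 : ∀ q, q ∈ X2 → q ∈ P := fun q h => Finset.mem_union_left _ (Finset.mem_union_left _
    (Finset.mem_union_left _ (Finset.mem_union_right _ h)))
  have i3 : ∀ q, q ∈ L3 → q ∈ P := fun q h => Finset.mem_union_left _ (Finset.mem_union_left _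
    (Finset.mem_union_right _ h))
  have i4 : ∀ q, q ∈ LA → q ∈ P := fun q h => Finset.mem_union_left _ (Finset.mem_union_right _ h)
  have slots : ∀ f z, LS G c H f z → f = r0 ∨ f = u ∨ f = v → (f, z) ∈ P := by
    intro f z h1 h2
    rcases h2 with h2 | h2 | h2
    · subst h2
      rcases (Sr.n3.nb z).1 h1.2.2.1 with h | h | h
      · exact (ne_tf h1.2.1.1 htS.1 h).elim
      · rw [h] at h1 ⊢
        exact i1 _ (p1 h1)
      · rw [h] at h1 ⊢
        exact i2 _ (p2 h1)
    · subst h2
      rcases (Su.n3.nb z).1 h1.2.2.1 with h | h | h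
      · exact (ne_tf h1.2.1.1 Su.cm h).elim
      · rw [h]
        exact Finset.mem_union_right _ (by simp)
      · rw [h] at h1 ⊢
        exact i3 _ (kb h1)
    · rw [h2] at h1 ⊢
      exact i3 _ (kv z h1)
  have slots3 : ∀ f z, LS G c H f z → f = u ∨ f = v → (f, z) ∈ P := by
    intro f z h1 h2
    exact slots f z h1 (Or.inr h2)
  have slotx : ∀ f z, LS G c H f z → z = x ∨ z = y ∨ z = a ∨ z = b → (f, z) ∈ P := by
    intro f z h1 h2
    have h3 := h1.1
    have h4 := h1.2.2.2.1
    have h5 := h1.2.2.1.symm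
    rcases h2 with h2 | h2 | h2 | h2
    · exact slots f z h1 (Or.inl (np f z h1 (Or.inl (h2 ▸ h5))))
    · exact slots f z h1 (Or.inl (np f z h1 (Or.inr (h2 ▸ h5))))
    · exact slots3 f z h1 (haf f h3 h4 (h2 ▸ h5))
    · exact slots3 f z h1 (hbf f h3 h4 (h2 ▸ h5))
  have slotw : ∀ f z, LS G c H f z → G.Adj z p → z ≠ a → (f, z) ∈ P := by
    intro f z h1 h2 h3
    by_cases h4 : f = u ∨ f = v
    · exact slots3 f z h1 h4
    · push Not at h4
      exact i4 _ (k1 f z h1 h2 h3 h4.1 h4.2)
  have slotA : ∀ f z, LS G c H f z → ¬ Clr G H2 f ∨ ¬ Clr G H2 z → (f, z) ∈ P := by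
    intro f z h1 h2
    rcases h2 with h2 | h2
    · rcases nfr f h1.1 h1.2.2.2.1 h2 with h3 | h3 | h3 | h3
      · exact slots f z h1 (Or.inl h3)
      · exact slots f z h1 (Or.inl (np f z h1 h3))
      · exact slots f z h1 (Or.inr (Or.inl h3))
      · exact slots f z h1 (Or.inr (Or.inr h3))
    · rcases nta z h1.2.1 h1.2.2.2.2 h2 with h3 | h3 | h3 | h3 | ⟨h3, h4⟩
      · exact slotx f z h1 (Or.inl h3)
      · exact slotx f z h1 (Or.inr (Or.inl h3))
      · exact slotx f z h1 (Or.inr (Or.inr (Or.inl h3)))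
      · exact slotx f z h1 (Or.inr (Or.inr (Or.inr h3)))
      · exact slotw f z h1 h3 h4
  -- mates and sources in `T1`
  have hmT : ∀ f m, Rm G c f m → Avl G c H m → ¬ Avl G c H2 m → Clr G H2 f →
      G.Adj x m ∨ G.Adj y m ∨ G.Adj b m := by
    intro f m h1 h2 h3 h4
    have h6 : ¬ Clr G H2 m := fun h => h3 ⟨h2.1, h⟩
    rcases nt1 m h2.1 h2.2 h6 with h7 | h7 | h7
    · have e : f = r0 := rm_uniq (hm _) h1.symm (by rw [h7]; exact htr)
      rw [e] at h4
      exact (h4.1 m_r).elim
    · have e : f = u := rm_uniq (hm _) h1.symm (by rw [h7]; exact huv.symm)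
      rw [e] at h4
      exact (h4.1 m_u).elim
    · exact h7
  have hsT : ∀ w m, L w m → Avl G c H m → ¬ Avl G c H2 m →
      G.Adj x m ∨ G.Adj y m ∨ G.Adj b m := by
    intro w m h1 h2 h3
    have h6 : ¬ Clr G H2 m := fun h => h3 ⟨h2.1, h⟩
    rcases nt1 m h2.1 h2.2 h6 with h7 | h7 | h7
    · exact (src_ne F h1 (by rw [h7]; exact htr) hrF).elim
    · exact (src_ne F h1 (by rw [h7]; exact huv.symm) hu).elim
    · exact h7
  -- the partner of `r0`
  obtain ⟨LV, cLV, kLV⟩ : ∃ LV : Finset V, LV.card ≤ 2 ∧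
      ∀ f, f ∈ Fr G c → (f = r0 ∨ G.Adj x f ∨ G.Adj y f) → f ∈ LV := by
    by_cases h : ∃ g, g ∈ Fr G c ∧ (G.Adj x g ∨ G.Adj y g) ∧ g ≠ r0
    · obtain ⟨g, h1, h2, h3⟩ := h
      refine ⟨{r0, g}, Finset.card_le_two, fun f hf h4 => ?_⟩
      by_cases h5 : f = r0
      · rw [h5]; simp
      · obtain ⟨w1, w2, w3, S1⟩ := sqr g h1 h2 h3
        obtain ⟨w1', w2', w3', S2⟩ := sqr f hf (h4.resolve_left h5) h5
        rcases sqg_only S1 hf ((S2.ha.n3.nb f).2 (by simp)) with h6 | h6
        · exact (h5 h6).elim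
        · rw [h6]; simp
    · refine ⟨{r0}, by simp, fun f hf h4 => ?_⟩
      by_cases h5 : f = r0
      · rw [h5]; simp
      · exact (h ⟨f, hf, h4.resolve_left h5, h5⟩).elim
  refine loss_of (P := P) (LQ := LQ) (LV := LV ∪ {u, v}) F ?_ ?_ ?_ ?_ ?_
  · -- good slots
    intro f z g1 g2
    have hls := g1.1
    rcases GGL V G c j L H H2 F hsub f z g1 g2 with h | h | ⟨t', r1, hM', h3, h4, h6⟩ |
      ⟨g, y1, vf, vg, z1, z2, hS, hls2, hg2, hor, n1, n2, n3, n4⟩
    · exact slotA f z hls (Or.inl h)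
    · exact slotA f z hls (Or.inr h)
    · -- a vertex of `T1` lost
      obtain ⟨_, m2, m3, m4, m5, m6, m7, m8⟩ := hM'
      rcases nt1 t' h3.1 h3.2 h4 with h7 | h7 | h7 | h7 | h7
      · exact (h6 (by rw [rm_uniq (hm _) m5 (by rw [h7]; exact htr)]; exact m_r)).elim
      · exact (h6 (by rw [rm_uniq (hm _) m5 (by rw [h7]; exact huv.symm)]; exact m_u)).elim
      · exact slotx f z hls (Or.inl (t1_A F h3.1 h7.symm tx m2.symm hls.2.1))
      · exact slotx f z hls (Or.inr (Or.inl (t1_A F h3.1 h7.symm ty m2.symm hls.2.1)))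
      · exact slotx f z hls (Or.inr (Or.inr (Or.inr
          (t1_A F h3.1 h7.symm tb m2.symm hls.2.1))))
    · -- a slot of a square: spoil at `x`, `y`, `b`
      have hLf : Live G c H f := ⟨hls.1, hls.2.2.2.1⟩
      have hLg : Live G c H g := hg2.mono hsub
      have hlg : ¬ Live G c H vg := fun h => hQ3 ⟨f, g, z, y1, vf, vg, z1, z2, hS, hLf, hLg, hls, h⟩
      have hlf : ¬ Live G c H vf := fun h => hQ3 ⟨g, f, z, y1, vg, vf, z1, z2, hS.swap, hLg, hLf,
        sqg_ls hS hls hLg, h⟩
      have hfu : f ≠ u := by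
        intro h
        have := hls2.2.2.2.1
        rw [h] at this
        exact this.1 m_u
      have hfr : f ≠ r0 := by
        intro h
        have := hls2.2.2.2.1
        rw [h] at this
        exact this.1 m_r
      rcases hor with h | h | h | ⟨y', h, h'⟩
      · exact (hlf h).elim
      · rcases hmT f vf (sv_rm hS.h1) h n2 hls2.2.2.2.1 with h5 | h5 | h5
        · exact i1 _ (q1 f z hls hfr ⟨vf, g, z, y1, vf, vg, z1, z2, h5, h, hS, hLf, hLg, hlf, hlg,
            Or.inl rfl⟩)
        · exact i2 _ (q2 f z hls hfr ⟨vf, g, z, y1, vf, vg, z1, z2, h5, h, hS, hLf, hLg, hlf, hlg,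
            Or.inl rfl⟩)
        · exact i3 _ (k3 f z hls hfu ⟨vf, g, z, y1, vf, vg, z1, z2, h5, h, hS, hLf, hLg, hlf, hlg,
            Or.inl rfl⟩)
      · exact (hlg h).elim
      · rcases hsT vf y' h h' (n4 y' h) with h5 | h5 | h5
        · exact i1 _ (q1 f z hls hfr ⟨y', g, z, y1, vf, vg, z1, z2, h5, h', hS, hLf, hLg, hlf, hlg,
            Or.inr h⟩)
        · exact i2 _ (q2 f z hls hfr ⟨y', g, z, y1, vf, vg, z1, z2, h5, h', hS, hLf, hLg, hlf, hlg,
            Or.inr h⟩)
        · exact i3 _ (k3 f z hls hfu ⟨y', g, z, y1, vf, vg, z1, z2, h5, h', hS, hLf, hLg, hlf, hlg,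
            Or.inr ⟨h, n4⟩⟩)
  · -- branches
    intro f vf z b1 t1 t1' q1 q1' κ κ' K hls hκ h
    by_cases h1 : ¬ Clr G H2 f ∨ ¬ Clr G H2 z
    · exact Or.inl (slotA f z hls h1)
    have h2 : ¬ Clr G H2 κ := by
      push Not at h1
      rcases h with h | h | h
      · exact (h h1.1).elim
      · exact (h h1.2).elim
      · exact h
    have tκ : tQ G c κ := ⟨by rw [K.q1.2, K.h1.cb], mu_of_rm hm K.q1.symm⟩
    rcases ntq κ tκ hκ h2 with h3 | h3
    · -- `κ` is the neighbour of `t`
      left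
      subst h3
      have eκt : G.Adj κ t := ((St.n3.nb κ).2 (by simp)).symm
      have hne : q1 ≠ t := ne_tf K.h1.cb htS.1
      obtain ⟨z', hN⟩ := Pool.Agent.Helper96.MC.n3_of2 F.reg K.q1.symm.1 eκt hne
      have hB := F.g3' _ _ _ _ _ _ _ _ _ _ t z' K hN htS
      by_cases e1 : t = vf
      · have e2 : f = r0 := rm_uniq (hm _) (by rw [e1]; exact (sv_rm K.hu).symm) htr
        exact slots f z hls (Or.inl e2)
      by_cases e2 : t = t1'
      · have e3 : G.Adj t z := by rw [e2]; exact (K.h2.n3.nb z).2 (by simp)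
        exact slotx f z hls (Or.inr (Or.inr (Or.inl (t1_A F ht hat.symm ta e3 hls.2.1))))
      · have e3 : a = b1 := F.k1 _ _ _ _ _ _ _ _ _ _ t z' r0 a K hN hB (sv_swap St) ta e1 e2
        have e4 : G.Adj a f := by
          rw [e3]
          exact ((K.hu.n3.nb b1).2 (by simp)).symm
        exact slots3 f z hls (haf f hls.1 hls.2.2.2.1 e4)
    · by_cases h4 : f = u ∨ f = v
      · exact Or.inl (slots3 f z hls h4)
      · push Not at h4
        exact Or.inr (k1' t1 f vf z b1 t1' q1 q1' κ κ' K hls hκ h3 h4.1 h4.2)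
  · intro f h1 h2
    rcases nfr f h1.1 h1.2 (fun h => h2 ⟨h1.1, h⟩) with h | h | h | h
    · exact Finset.mem_union_left _ (kLV f h1.1 (Or.inl h))
    · exact Finset.mem_union_left _ (kLV f h1.1 (Or.inr h))
    · rw [h]; simp
    · rw [h]; simp
  · rw [hP]
    have g1 := Finset.card_union_le (X1 ∪ X2 ∪ L3 ∪ LA) {(u, a)}
    have g2 := Finset.card_union_le (X1 ∪ X2 ∪ L3) LA
    have g3 := Finset.card_union_le (X1 ∪ X2) L3
    have g4 := Finset.card_union_le X1 X2
    rw [Finset.card_singleton] at g1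
    omega
  · have g1 := Finset.card_union_le LV {u, v}
    have g2 : ({u, v} : Finset V).card ≤ 2 := Finset.card_le_two
    omega

/-- row G_C4, without hypotheses -/
theorem st_GC4 : ST_GC4 := gc4_of st_GGL st_GSP Pool.Agent.Helper9.MC.GW.st_GW

end Pool.Agent.Helper54.MC.G4
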